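import Pool.Agent.H65.CM4.Targets1

/-!
# MP_52e316_nt, board `cm4_modules`: row A_CNT, the number of coincidences for two vectors
-/

set_option autoImplicit false

open MeasureTheory Set Filter NumberField NumberField.InfinitePlace Pool.Agent.H65.CM4
open scoped Real

namespace Pool.Agent.H78.CM4

theorem card_fib {ι κ : Type*} [DecidableEq κ] (F : Finset ι) (f : ι → κ) (N K : ℝ) (hN : 0 ≤ N)
    (hfib : ∀ a ∈ F.image f, ((F.filter fun x => f x = a).card : ℝ) ≤ N)
    (him : ((F.image f).card : ℝ) ≤ K) : (F.card : ℝ) ≤ K * N := by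
  have h1 : (F.card : ℝ) = ∑ a ∈ F.image f, ((F.filter fun x => f x = a).card : ℝ) := by
    rw [← Nat.cast_sum]
    congr 1
    exact Finset.card_eq_sum_card_image f F
  rw [h1]
  refine (Finset.sum_le_sum hfib).trans ?_
  rw [Finset.sum_const, nsmul_eq_mul]
  exact mul_le_mul_of_nonneg_right him hN

variable (k : Type) [Field k] [NumberField k] [IsTotallyReal k]

variable {k}

/-- the bilinear form of a real form at the vectors orthogonal to `v` and `w` -/
noncomputable def bl (p : Pl k) (v w : V2 k) (E : ℝ × ℝ × ℝ) : ℝ :=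
  E.1 * (rv p (v.2 : k) * rv p (w.2 : k)) -
    E.2.1 * (rv p (v.1 : k) * rv p (w.2 : k) + rv p (v.2 : k) * rv p (w.1 : k)) +
    E.2.2 * (rv p (v.1 : k) * rv p (w.1 : k))

theorem bl_val (p : Pl k) (v w : V2 k) (Z : QF k) (μ : RF k) (a b : k) :
    bl p v w ((dp Z + μ + sq2 a v - sq2 b w) p) =
      (dk k : ℝ)⁻¹ * rv p (hb Z v w : k) + bl p v w (μ p) := by
  simp only [bl, dp, rl, sq2, hb, Pi.add_apply, Pi.sub_apply, Prod.fst_add, Prod.snd_add,
    Prod.fst_sub, Prod.snd_sub, Prod.smul_mk, smul_eq_mul, map_add, map_sub, map_mul]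
  ring

theorem dp_rel (hd : (0 : ℝ) < dk k) (v w : V2 k) (Z Z' : QF k) (c c' : 𝓞 k)
    (h : Z - Z' = ((dk k : 𝓞 k) * c) • sqo v - ((dk k : 𝓞 k) * c') • sqo w) (μ : RF k) (a b : k) :
    dp Z' + μ + sq2 (a + (c : k)) v - sq2 (b + (c' : k)) w = dp Z + μ + sq2 a v - sq2 b w := by
  have hd0 : (dk k : ℝ) ≠ 0 := hd.ne'
  have e1 : Z.1 - Z'.1 = (dk k : 𝓞 k) * c * v.1 ^ 2 - (dk k : 𝓞 k) * c' * w.1 ^ 2 := by
    have := congrArg Prod.fst h
    simpa [sqo] using this
  have e2 : Z.2.1 - Z'.2.1 = (dk k : 𝓞 k) * c * (v.1 * v.2) -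
      (dk k : 𝓞 k) * c' * (w.1 * w.2) := by
    have := congrArg (fun x : QF k => x.2.1) h
    simpa [sqo] using this
  have e3 : Z.2.2 - Z'.2.2 = (dk k : 𝓞 k) * c * v.2 ^ 2 - (dk k : 𝓞 k) * c' * w.2 ^ 2 := by
    have := congrArg (fun x : QF k => x.2.2) h
    simpa [sqo] using this
  funext p
  have f : ∀ x y : 𝓞 k, x = y → rv p (x : k) = rv p (y : k) := fun x y hxy => by rw [hxy]
  have g1 := f _ _ e1
  have g2 := f _ _ e2
  have g3 := f _ _ e3
  push_cast at g1 g2 g3
  simp only [map_sub, map_mul, map_pow, map_natCast] at g1 g2 g3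
  have k1 : (dk k : ℝ)⁻¹ * rv p (Z.1 : k) = (dk k : ℝ)⁻¹ * rv p (Z'.1 : k) +
      rv p (c : k) * rv p (v.1 : k) ^ 2 - rv p (c' : k) * rv p (w.1 : k) ^ 2 := by
    field_simp
    linarith
  have k2 : (dk k : ℝ)⁻¹ * rv p (Z.2.1 : k) = (dk k : ℝ)⁻¹ * rv p (Z'.2.1 : k) +
      rv p (c : k) * (rv p (v.1 : k) * rv p (v.2 : k)) -
      rv p (c' : k) * (rv p (w.1 : k) * rv p (w.2 : k)) := by
    field_simp
    linarith
  have k3 : (dk k : ℝ)⁻¹ * rv p (Z.2.2 : k) = (dk k : ℝ)⁻¹ * rv p (Z'.2.2 : k) +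
      rv p (c : k) * rv p (v.2 : k) ^ 2 - rv p (c' : k) * rv p (w.2 : k) ^ 2 := by
    field_simp
    linarith
  simp only [dp, rl, sq2, Pi.add_apply, Pi.sub_apply, Prod.smul_mk, smul_eq_mul, map_add]
  refine Prod.ext ?_ (Prod.ext ?_ ?_)
  · simp only [Prod.fst_add, Prod.fst_sub]
    linarith
  · simp only [Prod.fst_add, Prod.fst_sub, Prod.snd_add, Prod.snd_sub]
    linarith
  · simp only [Prod.snd_add, Prod.snd_sub]
    linarith

omit [NumberField k] [IsTotallyReal k] in
theorem den_add (a : k) (c : 𝓞 k) : den (a + (c : k)) = den a := by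
  ext x
  change Int' ((x : k) * (a + (c : k))) ↔ Int' ((x : k) * a)
  constructor
  · rintro ⟨y, hy⟩
    refine ⟨y - x * c, ?_⟩
    have e : ((y - x * c : 𝓞 k) : k) = (y : k) - (x : k) * (c : k) := rfl
    rw [e, hy]; ring
  · rintro ⟨y, hy⟩
    refine ⟨y + x * c, ?_⟩
    have e : ((y + x * c : 𝓞 k) : k) = (y : k) + (x : k) * (c : k) := rfl
    rw [e, hy]; ring

omit [NumberField k] [IsTotallyReal k] in
theorem hb_sub (v w : V2 k) (Z Z' : QF k) : hb (Z - Z') v w = hb Z v w - hb Z' v w := by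
  simp only [hb, Prod.fst_sub, Prod.snd_sub]; ring

omit [NumberField k] [IsTotallyReal k] in
theorem hb_rel (v w : V2 k) (s t : 𝓞 k) : hb (s • sqo v - t • sqo w) v w = 0 := by
  simp only [hb, sqo, Prod.smul_mk, Prod.fst_sub, Prod.snd_sub, smul_eq_mul]; ring

/-- the classes of the dual points -/
def rel (v w : V2 k) : Setoid (QF k) where
  r Z Z' := ∃ c c' : 𝓞 k, Z - Z' = ((dk k : 𝓞 k) * c) • sqo v - ((dk k : 𝓞 k) * c') • sqo w
  iseqv := by
    refine ⟨?_, ?_, ?_⟩
    · intro Z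
      exact ⟨0, 0, by simp⟩
    · rintro Z Z' ⟨c, c', h⟩
      refine ⟨-c, -c', ?_⟩
      have : Z' - Z = -(Z - Z') := by abel
      rw [this, h, mul_neg, mul_neg, neg_smul, neg_smul]
      abel
    · rintro Z Z' Z'' ⟨c, c', h⟩ ⟨e, e', h'⟩
      refine ⟨c + e, c' + e', ?_⟩
      have : Z - Z'' = (Z - Z') + (Z' - Z'') := by abel
      rw [this, h, h', mul_add, mul_add, add_smul, add_smul]
      abel

variable (k) in
theorem pf_CNT (hEMB : T_EMB k) (hBXC : T_BXC k) (hNRD : T_NRD k) (hCLS : T_CLS k)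
    (hCAB : T_CAB k) : T_CNT k := by
  classical
  intro C0
  obtain ⟨hcardP, -, hd, -, -, -, hNr, -, -, hint, -⟩ := hEMB
  obtain ⟨CB, hCB, hB⟩ := hBXC
  obtain ⟨CL, hCL, hL⟩ := hCLS C0
  obtain ⟨CA, hCA, hA⟩ := hCAB
  have hdR : (0 : ℝ) < dk k := by exact_mod_cast hd
  refine ⟨CB * (1 + (4 * (dk k : ℝ)) ^ dg k) * (CL * (CA * (1 + CA))), by positivity, ?_⟩
  intro r η Λ A B v w μ F hr hη hΛ hA1 hB1 hcv hcw hdet hηv hηw hinj hF
  have hv0 : v ≠ 0 := by
    rintro rfl
    exact hdet (by simp [det])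
  have hw0 : w ≠ 0 := by
    rintro rfl
    exact hdet (by simp [det])
  obtain ⟨hV, hVp⟩ := (hNRD r v w hr).2.1 hv0
  obtain ⟨hW, hWp⟩ := (hNRD r w v hr).2.1 hw0
  have hdl := (hNRD r v w hr).2.2.1
  have hbil := (hNRD r v w hr).2.2.2.2
  set S : ℝ := Real.sqrt (nn r v * nn r w) with hS
  have hS0 : 0 ≤ S := Real.sqrt_nonneg _
  have hSe : S = Real.sqrt (nn r v) * Real.sqrt (nn r w) := Real.sqrt_mul hV.le _
  have hsv : 0 < Real.sqrt (nn r v) := Real.sqrt_pos.2 hV
  have hsw : 0 < Real.sqrt (nn r w) := Real.sqrt_pos.2 hW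
  have hD : 0 < Nr (det v w : k) := by
    have h1 := hNr (det v w : k)
    refine lt_of_le_of_ne h1.1 (fun h => hdet ?_)
    have := h1.2.1 h.symm
    exact_mod_cast this
  have hηn : 0 < η ^ dg k := by positivity
  -- the values of the bilinear form
  have him : ((F.image fun x => (hb x.2.2 v w : k)).card : ℝ) ≤
      CB * (1 + (4 * (dk k : ℝ) * η) ^ dg k * S) := by
    have hg := hB 1 (fun p => 4 * (dk k : ℝ) * η * Real.sqrt (nr r p v * nr r p w))
      (F.image fun x => (hb x.2.2 v w : k)) one_pos (fun p => by positivity) (by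
      intro x hx y hy hxy
      obtain ⟨X, hX, rfl⟩ := Finset.mem_image.1 hx
      obtain ⟨Y, hY, rfl⟩ := Finset.mem_image.1 hy
      have e : ((hb X.2.2 v w - hb Y.2.2 v w : 𝓞 k) : k) =
        (hb X.2.2 v w : k) - (hb Y.2.2 v w : k) := rfl
      refine ⟨?_, ?_⟩
      · rw [← e]
        refine hint _ (fun h0 => hxy ?_)
        have := sub_eq_zero.1 h0
        simp only [this]
      · intro p
        have hE : ∀ x ∈ F, |bl p v w ((dp x.2.2 + μ + sq2 x.1 v - sq2 x.2.1 w) p)| ≤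
            2 * η * Real.sqrt (nr r p v * nr r p w) := by
          intro x hx
          refine hbil _ p η hη.le ?_
          refine le_trans ?_ (hF x hx).2.2
          unfold dz
          exact Finset.single_le_sum (f := fun q => dz1 r ((dp x.2.2 + μ + sq2 x.1 v -
            sq2 x.2.1 w) q)) (fun q _ => by unfold dz1; positivity) (Finset.mem_univ p)
        have h1 := hE X hX
        have h2 := hE Y hY
        rw [bl_val] at h1 h2
        rw [map_sub]
        have h3 : |(dk k : ℝ)⁻¹ * (rv p (hb X.2.2 v w : k) - rv p (hb Y.2.2 v w : k))| ≤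
            4 * η * Real.sqrt (nr r p v * nr r p w) := by
          have e3 : (dk k : ℝ)⁻¹ * (rv p (hb X.2.2 v w : k) - rv p (hb Y.2.2 v w : k)) =
            ((dk k : ℝ)⁻¹ * rv p (hb X.2.2 v w : k) + bl p v w (μ p)) -
            ((dk k : ℝ)⁻¹ * rv p (hb Y.2.2 v w : k) + bl p v w (μ p)) := by ring
          rw [e3]
          refine (abs_sub _ _).trans ?_
          linarith
        rw [abs_mul, abs_of_pos (inv_pos.2 hdR), inv_mul_le_iff₀ hdR] at h3
        linarith)
    have e : (∏ p : Pl k, (4 * (dk k : ℝ) * η * Real.sqrt (nr r p v * nr r p w))) =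
        (4 * (dk k : ℝ) * η) ^ dg k * S := by
      rw [Finset.prod_mul_distrib, Finset.prod_const, Finset.card_univ, hcardP]
      congr 1
      have h2 : ∀ p : Pl k, 0 ≤ nr r p v * nr r p w := fun p =>
        mul_nonneg (hVp p).le (hWp p).le
      rw [hS]
      symm
      rw [Real.sqrt_eq_iff_mul_self_eq (by positivity)
        (Finset.prod_nonneg fun p _ => Real.sqrt_nonneg _), ← Finset.prod_mul_distrib]
      unfold nn
      rw [← Finset.prod_mul_distrib]
      exact Finset.prod_congr rfl fun p _ => (Real.mul_self_sqrt (h2 p)).symm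
    rw [e, div_one] at hg
    exact hg
  -- the fibres
  set N : ℝ := (CA + CA * η ^ dg k * A ^ 2 * Real.sqrt (nn r w) /
    (Nr (det v w : k) * Real.sqrt (nn r v))) * (1 + CA * η ^ dg k * B ^ 2 / nn r w) with hN
  have hN0 : 0 ≤ N := by positivity
  have hfib : ∀ h ∈ F.image (fun x => (hb x.2.2 v w : k)),
      ((F.filter fun x => (hb x.2.2 v w : k) = h).card : ℝ) ≤ CL * Nr (det v w : k) * N := by
    intro h hh
    obtain ⟨x0, hx0, rfl⟩ := Finset.mem_image.1 hh
    set G := F.filter fun x => (hb x.2.2 v w : k) = (hb x0.2.2 v w : k) with hG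
    have hGm : ∀ x ∈ G, x ∈ F ∧ hb x.2.2 v w = hb x0.2.2 v w := by
      intro x hx
      obtain ⟨h1, h2⟩ := Finset.mem_filter.1 hx
      exact ⟨h1, by exact_mod_cast h2⟩
    let rp : QF k → QF k := fun Z => Quotient.out (Quotient.mk (rel v w) Z)
    have hrp : ∀ Z, (rel v w).r (rp Z) Z := fun Z => Quotient.exact (Quotient.out_eq _)
    have him2 : ((G.image fun x => rp x.2.2).card : ℝ) ≤ CL * Nr (det v w : k) := by
      refine hL v w (hb x0.2.2 v w) _ hdet hcv hcw ?_ ?_
      · intro Z hZ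
        obtain ⟨x, hx, rfl⟩ := Finset.mem_image.1 hZ
        obtain ⟨c, c', hc⟩ := hrp x.2.2
        have h1 : hb (rp x.2.2 - x.2.2) v w = 0 := by
          rw [hc]
          exact hb_rel v w _ _
        rw [hb_sub, (hGm x hx).2] at h1
        exact sub_eq_zero.1 h1
      · intro Z hZ Z' hZ' c c' hc
        obtain ⟨x, hx, rfl⟩ := Finset.mem_image.1 hZ
        obtain ⟨y, hy, rfl⟩ := Finset.mem_image.1 hZ'
        have h1 : (rel v w).r (rp x.2.2) (rp y.2.2) := ⟨c, c', hc⟩
        have h2 : (rel v w).r x.2.2 y.2.2 :=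
          (rel v w).iseqv.trans ((rel v w).iseqv.symm (hrp x.2.2))
            ((rel v w).iseqv.trans h1 (hrp y.2.2))
        have h3 : Quotient.mk (rel v w) x.2.2 = Quotient.mk (rel v w) y.2.2 := Quotient.sound h2
        change Quotient.out (Quotient.mk (rel v w) x.2.2) =
          Quotient.out (Quotient.mk (rel v w) y.2.2)
        rw [h3]
    refine card_fib G (fun x => rp x.2.2) _ _ hN0 ?_ him2
    intro Z0 _
    have hch : ∀ x : k × k × QF k, ∃ c : 𝓞 k × 𝓞 k, x ∈ G.filter (fun x => rp x.2.2 = Z0) →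
        x.2.2 - Z0 = ((dk k : 𝓞 k) * c.1) • sqo v - ((dk k : 𝓞 k) * c.2) • sqo w := by
      intro x
      by_cases hx : x ∈ G.filter (fun x => rp x.2.2 = Z0)
      · obtain ⟨c, c', hc⟩ := (rel v w).iseqv.symm (hrp x.2.2)
        refine ⟨(c, c'), fun _ => ?_⟩
        rw [(Finset.mem_filter.1 hx).2] at hc
        exact hc
      · exact ⟨0, fun h => absurd h hx⟩
    choose c hc using hch
    have hinj2 : Set.InjOn (fun x : k × k × QF k => (x.1 + ((c x).1 : k), x.2.1 + ((c x).2 : k)))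
        (G.filter (fun x => rp x.2.2 = Z0) : Finset _) := by
      intro x hx y hy hxy
      have hx' := Finset.mem_coe.1 hx
      have hy' := Finset.mem_coe.1 hy
      have hxF := (hGm x (Finset.mem_filter.1 hx').1).1
      have hyF := (hGm y (Finset.mem_filter.1 hy').1).1
      obtain ⟨e1, e2⟩ := Prod.mk.inj hxy
      have i1 : Int' (x.1 - y.1) := by
        refine ⟨(c y).1 - (c x).1, ?_⟩
        have e : (((c y).1 - (c x).1 : 𝓞 k) : k) = ((c y).1 : k) - ((c x).1 : k) := rfl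
        rw [e]
        linear_combination -e1
      have i2 : Int' (x.2.1 - y.2.1) := by
        refine ⟨(c y).2 - (c x).2, ?_⟩
        have e : (((c y).2 - (c x).2 : 𝓞 k) : k) = ((c y).2 : k) - ((c x).2 : k) := rfl
        rw [e]
        linear_combination -e2
      obtain ⟨f1, f2⟩ := hinj x hxF y hyF i1 i2
      have g1 : (c x).1 = (c y).1 := by
        have : ((c x).1 : k) = ((c y).1 : k) := by linear_combination e1 - f1
        exact_mod_cast this
      have g2 : (c x).2 = (c y).2 := by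
        have : ((c x).2 : k) = ((c y).2 : k) := by linear_combination e2 - f2
        exact_mod_cast this
      have h1 := hc x hx'
      have h2 := hc y hy'
      rw [g1, g2, ← h2] at h1
      exact Prod.ext f1 (Prod.ext f2 (sub_left_injective h1))
    rw [← Finset.card_image_of_injOn hinj2]
    refine hA r η A B v w (dp Z0 + μ) _ hr hη hA1 hB1 hdet ?_
    intro y hy
    obtain ⟨x, hx, rfl⟩ := Finset.mem_image.1 hy
    have hxF := (hGm x (Finset.mem_filter.1 hx).1).1
    obtain ⟨h1, h2, h3⟩ := hF x hxF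
    refine ⟨?_, ?_, ?_⟩
    · rw [den_add]; exact h1
    · rw [den_add]; exact h2
    · rw [dp_rel hdR v w x.2.2 Z0 (c x).1 (c x).2 (hc x hx) μ x.1 x.2.1]
      exact h3
  have hcard := card_fib F (fun x => (hb x.2.2 v w : k)) _ _ (by positivity) hfib him
  refine hcard.trans ?_
  have k0 : 1 + (4 * (dk k : ℝ) * η) ^ dg k * S ≤ (1 + (4 * (dk k : ℝ)) ^ dg k) * Λ := by
    have h1 : η ^ dg k * S ≤ Λ := by
      have e : η ^ dg k * S = Real.sqrt ((η ^ dg k * nn r v) * (η ^ dg k * nn r w)) := by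
        rw [show (η ^ dg k * nn r v) * (η ^ dg k * nn r w) =
          (η ^ dg k) ^ 2 * (nn r v * nn r w) by ring, Real.sqrt_mul (by positivity),
          Real.sqrt_sq hηn.le]
      rw [e]
      refine Real.sqrt_le_iff.2 ⟨by linarith, ?_⟩
      rw [sq]
      exact mul_le_mul hηv hηw (by positivity) (by linarith)
    have h2 : (4 * (dk k : ℝ) * η) ^ dg k * S = (4 * (dk k : ℝ)) ^ dg k * (η ^ dg k * S) := by
      rw [mul_pow _ η]; ring
    rw [h2]
    have h3 : (4 * (dk k : ℝ)) ^ dg k * (η ^ dg k * S) ≤ (4 * (dk k : ℝ)) ^ dg k * Λ :=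
      mul_le_mul_of_nonneg_left h1 (by positivity)
    linarith
  have k1 : Nr (det v w : k) * (CA + CA * η ^ dg k * A ^ 2 * Real.sqrt (nn r w) /
      (Nr (det v w : k) * Real.sqrt (nn r v))) ≤ CA * (S * (1 + η ^ dg k * A ^ 2 / nn r v)) := by
    have e1 : Nr (det v w : k) * (CA + CA * η ^ dg k * A ^ 2 * Real.sqrt (nn r w) /
      (Nr (det v w : k) * Real.sqrt (nn r v))) = CA * (Nr (det v w : k) +
        S * (η ^ dg k * A ^ 2 / nn r v)) := by
      rw [hSe]
      have e2 : nn r v = Real.sqrt (nn r v) * Real.sqrt (nn r v) :=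
        (Real.mul_self_sqrt hV.le).symm
      have e3 : η ^ dg k * A ^ 2 / nn r v =
          η ^ dg k * A ^ 2 / (Real.sqrt (nn r v) * Real.sqrt (nn r v)) := by
        rw [← e2]
      rw [e3]
      field_simp
    rw [e1]
    refine mul_le_mul_of_nonneg_left ?_ hCA
    linarith
  have k2 : 1 + CA * η ^ dg k * B ^ 2 / nn r w ≤ (1 + CA) * (1 + η ^ dg k * B ^ 2 / nn r w) := by
    have hx : 0 ≤ η ^ dg k * B ^ 2 / nn r w := by positivity
    have e : CA * η ^ dg k * B ^ 2 / nn r w = CA * (η ^ dg k * B ^ 2 / nn r w) := by ring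
    rw [e]
    nlinarith
  calc CB * (1 + (4 * (dk k : ℝ) * η) ^ dg k * S) * (CL * Nr (det v w : k) * N)
      = CB * (1 + (4 * (dk k : ℝ) * η) ^ dg k * S) * (CL *
          ((Nr (det v w : k) * (CA + CA * η ^ dg k * A ^ 2 * Real.sqrt (nn r w) /
      (Nr (det v w : k) * Real.sqrt (nn r v)))) * (1 + CA * η ^ dg k * B ^ 2 / nn r w))) := by
        rw [hN]
        ring
    _ ≤ CB * ((1 + (4 * (dk k : ℝ)) ^ dg k) * Λ) * (CL *
          ((CA * (S * (1 + η ^ dg k * A ^ 2 / nn r v))) *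
          ((1 + CA) * (1 + η ^ dg k * B ^ 2 / nn r w)))) := by
        refine mul_le_mul (mul_le_mul_of_nonneg_left k0 (by linarith))
          (mul_le_mul_of_nonneg_left (mul_le_mul k1 k2 (by positivity) (by positivity)) hCL)
          (by positivity) (by positivity)
    _ = CB * (1 + (4 * (dk k : ℝ)) ^ dg k) * (CL * (CA * (1 + CA))) * Λ * S *
          (1 + η ^ dg k * A ^ 2 / nn r v) * (1 + η ^ dg k * B ^ 2 / nn r w) := by ring

end Pool.Agent.H78.CM4
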